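import Pool.Agent.Helper85.Lusin.CovM2

/-!
# `K_Omega`-Lindelof Lusin sets without `S_1(K_Omega, K_Omega)` have size `cov(M)`
-/

open Set TopologicalSpace Pool.Agent.Helper85.Lusin

universe u

namespace Pool.Agent.Results.MP_74a7a6_gt.CardinalCovM

theorem result {X : Type u} [TopologicalSpace X] [MetrizableSpace X] [SecondCountableTopology X]
    (hX : IsLusin X) (hKL : KOmegaLindelof X) (hS : ¬ S1KOmega X) :
    Cardinal.mk X = Cardinal.lift.{u} covM := by
  have := card_eq_covM hX hKL hS
  simpa using this

end Pool.Agent.Results.MP_74a7a6_gt.CardinalCovM
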