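import Pool.Agent.Helper85.Lusin.Rothberger

/-!
# `K_Omega`-Lindelof Lusin sets have Rothberger finite powers

Being `K_Omega`-Lindelof is a covering property without any selection in it. For Lusin sets it
nevertheless implies that all finite powers have the selection property `S_1(O, O)`.
-/

open Set TopologicalSpace Pool.Agent.Helper85.Lusin

namespace Pool.Agent.Results.MP_74a7a6_gt.RothbergerPowers

theorem result {X : Type*} [TopologicalSpace X] [MetrizableSpace X] [SecondCountableTopology X]
    (hX : IsLusin X) (hKL : KOmegaLindelof X) (k : ℕ) : Rothberger (Fin k → X) :=
  rothberger_pow hX hKL k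

end Pool.Agent.Results.MP_74a7a6_gt.RothbergerPowers
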